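import Pool.Agent.H51.InvUniv.Main

/-!
# Every complete analytic quasi-order is invariantly universal together with equality

Let `R` be an analytic quasi-order on `2^ω` (the general case reduces to this one). On `ω^ω` let
`Q` be the transitive closure of the relation: `x → x'` if there are `a, b` with `R a b` such that
for every `p` either `x p = x' p`, or `x p` codes `a ↾ p` and `x' p` codes `b ↾ p`. Then `Q` is an
analytic quasi-order, so it is reduced to `S` by a Borel map `f`, which is continuous on a comeager
set. For a sufficiently generic `w : ω^ω`, the map `h` which fills the zeros of `w` by the codes of
initial segments of `y` has range inside this comeager set and reduces `R` to `Q`. Hence `f ∘ h`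
is a continuous reduction of `R` to `S` defined on the compact space `2^ω`; its range `B` is
compact and there is a Borel section of `f ∘ h` on it.
-/

namespace Pool.Agent.Results.MP_62a6df_lc.Full

open Pool.Agent.H51.InvUniv

/-- For every complete analytic quasi-order `S` on a standard Borel space, the pair `(S, =)` is
invariantly universal. -/
theorem result (X : Type) [MeasurableSpace X] [StandardBorelSpace X] (S : X → X → Prop)
    (hS : CompleteQO S) : InvariantlyUniversal S (fun x y => x = y) :=
  main hS

end Pool.Agent.Results.MP_62a6df_lc.Full
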